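import Pool.Agent.Lib_MP_d1a796.Frac

/-!
# The linear relaxation of domination in visibility graphs has integrality gap at least two

For every `m ≥ 1` there is a simple polygon whose visibility graph has domination number `m` and a fractional
dominating function of total value `m / 2 + 1`.
-/

set_option autoImplicit false

namespace Pool.Agent.Results.MP_d1a796_lc.IntegralityGap

open VisDom

theorem result : ∀ m : ℕ, 1 ≤ m → ∃ (n : ℕ) (_ : NeZero n) (P : Fin n → ℝ × ℝ), IsSimple P ∧
    gam (visGraph P) = m ∧ ∃ w : Fin n → ℝ, IsFracDom (visGraph P) w ∧ ∑ x, w x = (m : ℝ) / 2 + 1 := by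
  intro m hm
  exact ⟨NN m, inferInstance, polygon (⊤ : SimpleGraph (Fin m)), poly_simple m hm _, frac_gap hm,
    frac_dom hm _⟩

end Pool.Agent.Results.MP_d1a796_lc.IntegralityGap
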