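import Pool.Agent.Lib_MP_d1a796.Local

/-!
# Local search is not an approximation algorithm for dominating sets of visibility graphs

For all `k` and `N` there is a simple polygon whose visibility graph has domination number at most `k + 2` and a
dominating set with at least `N` vertices which no exchange removing at most `k` vertices improves.
-/

set_option autoImplicit false

namespace Pool.Agent.Results.MP_d1a796_lc.LocalSearchGap

open VisDom

theorem result : ∀ k N : ℕ, ∃ (n : ℕ) (_ : NeZero n) (P : Fin n → ℝ × ℝ), IsSimple P ∧
    gam (visGraph P) ≤ k + 2 ∧ ∃ D : Finset (Fin n), LocalOpt (visGraph P) k D ∧ N ≤ D.card := by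
  intro k N
  obtain ⟨D, h1, h2, h3⟩ := local_main k N
  exact ⟨NN (k + 1 + N), inferInstance, polygon (biGraph k N), poly_simple _ (by omega) _, h3, D, h1, h2⟩

end Pool.Agent.Results.MP_d1a796_lc.LocalSearchGap
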