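import Pool.Agent.Lib_MP_d1a796.Comb
import Pool.Agent.Lib_MP_d1a796.Size

/-!
# Vertex covers embed exactly in dominating sets of visibility graphs

For every graph `H` on `m` vertices there is an explicit simple polygon with `3 m ^ 2 + 2 m + 5` vertices, whose
coordinates are fractions of polynomial size, such that the domination number of its visibility graph is
the vertex cover number of `H` plus one, and the solutions can be translated in both directions.
-/

set_option autoImplicit false

namespace Pool.Agent.Results.MP_d1a796_lc.VertexCoverReduction

open VisDom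

theorem result : ∀ (m : ℕ), 1 ≤ m → ∀ H : SimpleGraph (Fin m),
    IsSimple (polygon H) ∧
    (∀ l, IsFrac m (polygon H l).1 ∧ IsFrac m (polygon H l).2) ∧
    (∀ C : Finset (Fin m), IsCov H C →
      IsDom (visGraph (polygon H)) (forth m C) ∧ (forth m C).card ≤ C.card + 1) ∧
    (∀ D : Finset (Fin (NN m)), IsDom (visGraph (polygon H)) D →
      IsCov H (back m D) ∧ (back m D).card + 1 ≤ D.card) ∧
    gam (visGraph (polygon H)) = tau H + 1 := by
  intro m hm H
  refine ⟨poly_simple m hm (adjFn H), fun l => vert_frac m (adjFn H) l.val l.isLt, fun C hC => ?_,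
    fun D hD => ⟨back_cov hm H D hD, back_small hm H D hD⟩, gam_eq hm H⟩
  refine ⟨forth_dom hm H C hC, ?_⟩
  unfold forth
  refine (Finset.card_insert_le _ _).trans ?_
  have := Finset.card_image_le (s := C) (f := uv m)
  omega

end Pool.Agent.Results.MP_d1a796_lc.VertexCoverReduction
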